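import Pool.Agent.H.MP_e7c909_al.Star

set_option autoImplicit false

namespace Pool.Agent.Results.MP_e7c909_al.NotWeaklyNoetherian

open Pool.Agent.H.MP_e7c909_al

/-- There is a commutative ring `R` which lies in the localizing subcategory of `D(R)` generated
by its residue fields, but whose prime spectrum is not weakly noetherian. -/
theorem result : ∃ (R : Type) (_ : CommRing R), Star R ∧ ¬ WeaklyNoetherian (PrimeSpectrum R) :=
  ⟨RR, inferInstance, by
    letI := HasDerivedCategory.standard (ModuleCat.{0} RR)
    exact starCond_RR, not_weaklyNoetherian⟩

end Pool.Agent.Results.MP_e7c909_al.NotWeaklyNoetherian
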